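import Pool.Agent.FB.L2

set_option autoImplicit false
set_option linter.unusedSectionVars false

/-!
# The finite-dimensional algebras
-/

namespace Pool.Agent.FB

open Finset

section

variable {G : Type} [AddCommGroup G] [Fintype G] [DecidableEq G]

/-- The norm of the negligible part: maximum of the sup norm and `m` times the `L²` norm. -/
noncomputable def NU (m : ℕ) (r : AddChar G ℂ → ℂ) : ℝ := max ‖r‖ (m * L2 r)

theorem norm_le_NU (m : ℕ) (r : AddChar G ℂ → ℂ) : ‖r‖ ≤ NU m r := le_max_left _ _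

theorem L2_le_NU (m : ℕ) (r : AddChar G ℂ → ℂ) : m * L2 r ≤ NU m r := le_max_right _ _

theorem NU_nonneg (m : ℕ) (r : AddChar G ℂ → ℂ) : 0 ≤ NU m r :=
  (norm_nonneg _).trans (norm_le_NU m r)

theorem NU_add_le (m : ℕ) (r s : AddChar G ℂ → ℂ) : NU m (r + s) ≤ NU m r + NU m s := by
  apply max_le
  · exact (norm_add_le _ _).trans (add_le_add (norm_le_NU m r) (norm_le_NU m s))
  · calc (m : ℝ) * L2 (r + s) ≤ m * (L2 r + L2 s) := by gcongr; exact L2_add_le r s
      _ = m * L2 r + m * L2 s := by ring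
      _ ≤ _ := add_le_add (L2_le_NU m r) (L2_le_NU m s)

theorem NU_smul (m : ℕ) (c : ℂ) (r : AddChar G ℂ → ℂ) : NU m (c • r) = ‖c‖ * NU m r := by
  rw [NU, NU, L2_smul, norm_smul, mul_max_of_nonneg _ _ (norm_nonneg c)]
  congr 1
  ring

theorem NU_zero (m : ℕ) : NU m (0 : AddChar G ℂ → ℂ) = 0 := by
  have := NU_smul m 0 (0 : AddChar G ℂ → ℂ)
  simpa using this

theorem NU_mul_le (m : ℕ) (r s : AddChar G ℂ → ℂ) : NU m (r * s) ≤ NU m r * ‖s‖ := by
  apply max_le
  · exact (norm_mul_le _ _).trans (mul_le_mul_of_nonneg_right (norm_le_NU m r) (norm_nonneg _))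
  · calc (m : ℝ) * L2 (r * s) ≤ m * (L2 r * ‖s‖) := by gcongr; exact L2_mul_le r s
      _ = (m * L2 r) * ‖s‖ := by ring
      _ ≤ _ := mul_le_mul_of_nonneg_right (L2_le_NU m r) (norm_nonneg _)

/-- Synthesis. -/
noncomputable def syn (α : G → ℂ) : AddChar G ℂ → ℂ := ∑ g, α g • tt g

theorem syn_add (α β : G → ℂ) : syn (α + β) = syn α + syn β := by
  simp only [syn, Pi.add_apply, add_smul, Finset.sum_add_distrib]

theorem syn_smul (c : ℂ) (α : G → ℂ) : syn (c • α) = c • syn α := by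
  simp only [syn, Pi.smul_apply, smul_eq_mul, mul_smul, Finset.smul_sum]

theorem syn_zero : syn (0 : G → ℂ) = 0 := by simp [syn]

theorem norm_syn_le (α : G → ℂ) : ‖syn α‖ ≤ ∑ g, ‖α g‖ := by
  refine (norm_sum_le _ _).trans (Finset.sum_le_sum fun g _ => ?_)
  rw [norm_smul]
  exact mul_le_of_le_one_right (norm_nonneg _) (pi_norm_tt_le g)

end

variable {N m : ℕ} (D : WGroup N (m : ℝ))

/-- The cost of a representation `a = syn α + r`. -/
noncomputable def cost (α : D.G → ℂ) (r : AddChar D.G ℂ → ℂ) : ℝ :=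
  ∑ g, ‖α g‖ * D.w g + NU m r

theorem w_pos (g : D.G) : 0 < D.w g := zero_lt_one.trans_le (D.one_le g)

theorem cost_nonneg (α : D.G → ℂ) (r : AddChar D.G ℂ → ℂ) : 0 ≤ cost D α r :=
  add_nonneg (Finset.sum_nonneg fun g _ => mul_nonneg (norm_nonneg _) (w_pos D g).le)
    (NU_nonneg m r)

theorem sum_norm_le (α : D.G → ℂ) : ∑ g, ‖α g‖ ≤ ∑ g, ‖α g‖ * D.w g :=
  Finset.sum_le_sum fun g _ => le_mul_of_one_le_right (norm_nonneg _) (D.one_le g)

/-- The norm. -/
noncomputable def NN (a : AddChar D.G ℂ → ℂ) : ℝ := ⨅ α : D.G → ℂ, cost D α (a - syn α)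

theorem bddBelow_cost (a : AddChar D.G ℂ → ℂ) :
    BddBelow (Set.range fun α : D.G → ℂ => cost D α (a - syn α)) :=
  ⟨0, by rintro _ ⟨α, rfl⟩; exact cost_nonneg D _ _⟩

theorem NN_nonneg (a : AddChar D.G ℂ → ℂ) : 0 ≤ NN D a :=
  le_ciInf fun _ => cost_nonneg D _ _

theorem NN_le (a : AddChar D.G ℂ → ℂ) (α : D.G → ℂ) (r : AddChar D.G ℂ → ℂ)
    (h : a = syn α + r) : NN D a ≤ cost D α r := by
  have : r = a - syn α := by rw [h]; abel
  rw [this]
  exact ciInf_le (bddBelow_cost D a) α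

theorem exists_rep (a : AddChar D.G ℂ → ℂ) {x : ℝ} (hx : NN D a < x) :
    ∃ (α : D.G → ℂ) (r : AddChar D.G ℂ → ℂ), a = syn α + r ∧ cost D α r < x := by
  obtain ⟨α, hα⟩ := exists_lt_of_ciInf_lt hx
  exact ⟨α, a - syn α, by abel, hα⟩

theorem cost_add_le (α β : D.G → ℂ) (r s : AddChar D.G ℂ → ℂ) :
    cost D (α + β) (r + s) ≤ cost D α r + cost D β s := by
  have h1 : ∑ g, ‖(α + β) g‖ * D.w g ≤ ∑ g, ‖α g‖ * D.w g + ∑ g, ‖β g‖ * D.w g := by
    rw [← Finset.sum_add_distrib]
    refine Finset.sum_le_sum fun g _ => ?_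
    rw [← add_mul]
    exact mul_le_mul_of_nonneg_right (norm_add_le _ _) (w_pos D g).le
  have h2 := NU_add_le m r s
  simp only [cost]
  linarith

theorem cost_smul (c : ℂ) (α : D.G → ℂ) (r : AddChar D.G ℂ → ℂ) :
    cost D (c • α) (c • r) = ‖c‖ * cost D α r := by
  simp only [cost, NU_smul, Pi.smul_apply, smul_eq_mul, norm_mul, mul_add, Finset.mul_sum,
    mul_assoc]

theorem NN_add_le (a b : AddChar D.G ℂ → ℂ) : NN D (a + b) ≤ NN D a + NN D b := by
  refine le_of_forall_pos_le_add fun ε hε => ?_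
  obtain ⟨α, r, h1, h2⟩ := exists_rep D a (lt_add_of_pos_right (NN D a) (half_pos hε))
  obtain ⟨β, s, h3, h4⟩ := exists_rep D b (lt_add_of_pos_right (NN D b) (half_pos hε))
  have h5 := NN_le D (a + b) (α + β) (r + s) (by rw [h1, h3, syn_add]; abel)
  have h6 := cost_add_le D α β r s
  linarith

theorem NN_smul_le (c : ℂ) (a : AddChar D.G ℂ → ℂ) : NN D (c • a) ≤ ‖c‖ * NN D a := by
  rcases (norm_nonneg c).eq_or_lt with hc | hc
  · have hc0 : c = 0 := norm_eq_zero.1 hc.symm
    rw [hc0, norm_zero, zero_mul, zero_smul]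
    refine (NN_le D 0 0 0 (by rw [syn_zero]; simp)).trans ?_
    simp [cost, NU_zero]
  · refine le_of_forall_pos_le_add fun ε hε => ?_
    obtain ⟨α, r, h1, h2⟩ := exists_rep D a (lt_add_of_pos_right (NN D a) (div_pos hε hc))
    have h5 := NN_le D (c • a) (c • α) (c • r) (by rw [h1, syn_smul, smul_add])
    rw [cost_smul] at h5
    have h6 : ‖c‖ * cost D α r ≤ ‖c‖ * (NN D a + ε / ‖c‖) := by gcongr
    have h7 : ‖c‖ * (NN D a + ε / ‖c‖) = ‖c‖ * NN D a + ε := by field_simp
    linarith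

theorem norm_le_cost (α : D.G → ℂ) (r : AddChar D.G ℂ → ℂ) : ‖syn α + r‖ ≤ cost D α r := by
  have h1 := norm_syn_le α
  have h2 := sum_norm_le D α
  have h3 := norm_le_NU m r
  have h4 := norm_add_le (syn α) r
  simp only [cost]
  linarith

theorem norm_le_NN (a : AddChar D.G ℂ → ℂ) : ‖a‖ ≤ NN D a := by
  refine le_ciInf fun α => ?_
  have := norm_le_cost D α (a - syn α)
  rwa [add_sub_cancel] at this

theorem NN_tt_le (g : D.G) : NN D (tt g) ≤ D.w g := by
  refine (NN_le D (tt g) (Pi.single g 1) 0 ?_).trans ?_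
  · simp only [syn]
    rw [Finset.sum_eq_single g]
    · simp
    · intro h _ hne
      rw [Pi.single_eq_of_ne hne, zero_smul]
    · simp
  · simp only [cost, NU_zero, add_zero]
    rw [Finset.sum_eq_single g]
    · simp
    · intro h _ hne
      rw [Pi.single_eq_of_ne hne]; simp
    · simp

theorem NN_le_NU (r : AddChar D.G ℂ → ℂ) : NN D r ≤ NU m r := by
  refine (NN_le D r 0 r (by rw [syn_zero]; simp)).trans ?_
  simp [cost]

theorem NN_sum_le {ι : Type} (s : Finset ι) (f : ι → AddChar D.G ℂ → ℂ) :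
    NN D (∑ i ∈ s, f i) ≤ ∑ i ∈ s, NN D (f i) := by
  classical
  induction s using Finset.induction_on with
  | empty =>
    have := NN_smul_le D 0 0
    simp only [zero_smul, norm_zero, zero_mul] at this
    simpa using this
  | insert i s hi ih =>
    rw [Finset.sum_insert hi, Finset.sum_insert hi]
    exact (NN_add_le D _ _).trans (by linarith)

theorem NN_mul_le (a b : AddChar D.G ℂ → ℂ) : NN D (a * b) ≤ NN D a * NN D b := by
  -- reduce to representations
  have key : ∀ (α β : D.G → ℂ) (r s : AddChar D.G ℂ → ℂ),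
      NN D ((syn α + r) * (syn β + s)) ≤ cost D α r * cost D β s := by
    intro α β r s
    have h1 : (syn α + r) * (syn β + s) = ∑ g, ∑ h, (α g * β h) • tt (g + h) +
        (r * syn β + (s * syn α + r * s)) := by
      have : syn α * syn β = ∑ g, ∑ h, (α g * β h) • tt (g + h) := by
        simp only [syn, Finset.sum_mul_sum]
        refine Finset.sum_congr rfl fun g _ => Finset.sum_congr rfl fun h _ => ?_
        rw [tt_add, smul_mul_smul_comm]
      rw [← this]; ring
    rw [h1]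
    have h2 : NN D (∑ g, ∑ h, (α g * β h) • tt (g + h)) ≤
        (∑ g, ‖α g‖ * D.w g) * (∑ h, ‖β h‖ * D.w h) := by
      refine (NN_sum_le D _ _).trans ?_
      rw [Finset.sum_mul_sum]
      refine Finset.sum_le_sum fun g _ => (NN_sum_le D _ _).trans ?_
      refine Finset.sum_le_sum fun h _ => ?_
      refine (NN_smul_le D _ _).trans ?_
      rw [norm_mul]
      calc ‖α g‖ * ‖β h‖ * NN D (tt (g + h)) ≤ ‖α g‖ * ‖β h‖ * (D.w g * D.w h) := by
            gcongr
            exact (NN_tt_le D _).trans (D.add_le g h)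
        _ = _ := by ring
    have hsb : ‖syn β‖ ≤ ∑ h, ‖β h‖ * D.w h := (norm_syn_le β).trans (sum_norm_le D β)
    have hsa : ‖syn α‖ ≤ ∑ h, ‖α h‖ * D.w h := (norm_syn_le α).trans (sum_norm_le D α)
    have h3 : NN D (r * syn β) ≤ NU m r * (∑ h, ‖β h‖ * D.w h) :=
      (NN_le_NU D _).trans ((NU_mul_le m _ _).trans
        (mul_le_mul_of_nonneg_left hsb (NU_nonneg m r)))
    have h4 : NN D (s * syn α) ≤ NU m s * (∑ h, ‖α h‖ * D.w h) :=
      (NN_le_NU D _).trans ((NU_mul_le m _ _).trans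
        (mul_le_mul_of_nonneg_left hsa (NU_nonneg m s)))
    have h5 : NN D (r * s) ≤ NU m r * NU m s :=
      (NN_le_NU D _).trans ((NU_mul_le m _ _).trans
        (mul_le_mul_of_nonneg_left (norm_le_NU m s) (NU_nonneg m r)))
    have h6 := NN_add_le D (∑ g, ∑ h, (α g * β h) • tt (g + h))
      (r * syn β + (s * syn α + r * s))
    have h7 := NN_add_le D (r * syn β) (s * syn α + r * s)
    have h8 := NN_add_le D (s * syn α) (r * s)
    have h9 : cost D α r * cost D β s = (∑ g, ‖α g‖ * D.w g) * (∑ h, ‖β h‖ * D.w h) +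
        (NU m r * (∑ h, ‖β h‖ * D.w h) + (NU m s * (∑ h, ‖α h‖ * D.w h) +
        NU m r * NU m s)) := by
      simp only [cost]; ring
    linarith
  -- pass to the infimum
  have h1 : ∀ x, NN D a < x → ∀ y, NN D b < y → NN D (a * b) ≤ x * y := by
    intro x hx y hy
    obtain ⟨α, r, h1, h2⟩ := exists_rep D a hx
    obtain ⟨β, s, h3, h4⟩ := exists_rep D b hy
    rw [h1, h3]
    exact (key α β r s).trans (mul_le_mul h2.le h4.le (cost_nonneg D _ _)
      ((cost_nonneg D α r).trans h2.le))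
  have h2 : Filter.Tendsto (fun ε : ℝ => (NN D a + ε) * (NN D b + ε))
      (nhdsWithin 0 (Set.Ioi 0)) (nhds ((NN D a + 0) * (NN D b + 0))) := by
    apply Filter.Tendsto.mono_left _ nhdsWithin_le_nhds
    exact Continuous.tendsto (by fun_prop) _
  rw [add_zero, add_zero] at h2
  refine ge_of_tendsto h2 ?_
  filter_upwards [self_mem_nhdsWithin] with ε hε
  exact h1 _ (lt_add_of_pos_right _ hε) _ (lt_add_of_pos_right _ hε)

/-- The constant function `1` has large norm; more precisely the mean value functional is small. -/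
theorem le_NN (a : AddChar D.G ℂ → ℂ) : m * ‖∑ ψ, a ψ‖ ≤ Fintype.card D.G * NN D a := by
  have hc : (0 : ℝ) < Fintype.card D.G := by exact_mod_cast Fintype.card_pos
  have key : ∀ (α : D.G → ℂ) (r : AddChar D.G ℂ → ℂ),
      m * ‖∑ ψ, (syn α + r) ψ‖ ≤ Fintype.card D.G * cost D α r := by
    intro α r
    have h1 : ∑ ψ, (syn α + r) ψ = Fintype.card D.G * α 0 + ∑ ψ, r ψ := by
      simp only [Pi.add_apply, Finset.sum_add_distrib]
      congr 1
      simp only [syn, Finset.sum_apply, Pi.smul_apply, smul_eq_mul]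
      rw [Finset.sum_comm]
      simp only [← Finset.mul_sum, sum_tt]
      simp [mul_comm]
    rw [h1]
    have h2 : ‖(Fintype.card D.G : ℂ) * α 0 + ∑ ψ, r ψ‖ ≤
        Fintype.card D.G * ‖α 0‖ + Fintype.card D.G * L2 r := by
      refine (norm_add_le _ _).trans (add_le_add ?_ (norm_avg_le r))
      rw [norm_mul, Complex.norm_natCast]
    have h3 : (m : ℝ) * ‖α 0‖ ≤ ∑ g, ‖α g‖ * D.w g := by
      have h4 : ‖α 0‖ * D.w 0 ≤ ∑ g, ‖α g‖ * D.w g :=
        Finset.single_le_sum (f := fun g => ‖α g‖ * D.w g)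
          (fun g _ => mul_nonneg (norm_nonneg _) (w_pos D g).le) (Finset.mem_univ 0)
      have h5 : (m : ℝ) * ‖α 0‖ ≤ ‖α 0‖ * D.w 0 := by
        rw [mul_comm]
        exact mul_le_mul_of_nonneg_left D.zero_ge (norm_nonneg _)
      linarith
    have h4 := L2_le_NU m r
    calc (m : ℝ) * ‖(Fintype.card D.G : ℂ) * α 0 + ∑ ψ, r ψ‖
        ≤ m * (Fintype.card D.G * ‖α 0‖ + Fintype.card D.G * L2 r) := by gcongr
      _ = Fintype.card D.G * (m * ‖α 0‖ + m * L2 r) := by ring
      _ ≤ Fintype.card D.G * (∑ g, ‖α g‖ * D.w g + NU m r) := by gcongr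
      _ = _ := rfl
  rw [mul_comm (Fintype.card D.G : ℝ), ← div_le_iff₀ hc]
  refine le_ciInf fun α => ?_
  rw [div_le_iff₀ hc, mul_comm (cost D α _)]
  have := key α (a - syn α)
  rwa [add_sub_cancel] at this

end Pool.Agent.FB
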