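import Mathlib

set_option autoImplicit false
set_option linter.unusedSectionVars false

/-!
# The `c₀`-sum of a sequence of commutative Banach algebras
-/

namespace Pool.Agent.FB

open Filter Topology ENNReal

variable (E : ℕ → Type) [∀ m, NonUnitalNormedCommRing (E m)] [∀ m, NormedSpace ℂ (E m)]
  [∀ m, IsScalarTower ℂ (E m) (E m)] [∀ m, SMulCommClass ℂ (E m) (E m)]

/-- The `c₀`-sum as a subalgebra of the `ℓ^∞`-sum. -/
noncomputable def czero : NonUnitalSubalgebra ℂ (lp E ∞) where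
  carrier := {f | Tendsto (fun m => ‖f m‖) atTop (𝓝 0)}
  zero_mem' := by
    simp only [Set.mem_ofPred_eq]
    have : (fun m => ‖(0 : lp E ∞) m‖) = fun _ => 0 := by
      funext m; simp
    rw [this]; exact tendsto_const_nhds
  add_mem' := by
    intro a b ha hb
    have ha' : Tendsto (fun m => ‖a m‖) atTop (𝓝 0) := ha
    have hb' : Tendsto (fun m => ‖b m‖) atTop (𝓝 0) := hb
    have := ha'.add hb'
    rw [add_zero] at this
    exact squeeze_zero (fun _ => norm_nonneg _) (fun m => norm_add_le (a m) (b m)) this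
  mul_mem' := by
    intro a b ha hb
    have ha' : Tendsto (fun m => ‖a m‖) atTop (𝓝 0) := ha
    have hb' : Tendsto (fun m => ‖b m‖) atTop (𝓝 0) := hb
    have := ha'.mul hb'
    rw [mul_zero] at this
    exact squeeze_zero (fun _ => norm_nonneg _) (fun m => norm_mul_le (a m) (b m)) this
  smul_mem' := by
    intro c a ha
    have ha' : Tendsto (fun m => ‖a m‖) atTop (𝓝 0) := ha
    have := ha'.const_mul ‖c‖
    rw [mul_zero] at this
    exact squeeze_zero (fun _ => norm_nonneg _) (fun m => norm_smul_le c (a m)) this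

/-- The `c₀`-sum. -/
abbrev Cz : Type := czero E

variable {E}

noncomputable instance : NormedSpace ℂ (Cz E) where
  norm_smul_le c f := norm_smul_le c f.1

theorem cz_tendsto (f : Cz E) : Tendsto (fun m => ‖f.1 m‖) atTop (𝓝 0) := f.2

theorem cz_norm_def (f : Cz E) : ‖f‖ = ‖f.1‖ := rfl

theorem cz_apply_le (f : Cz E) (m : ℕ) : ‖f.1 m‖ ≤ ‖f‖ :=
  lp.norm_apply_le_norm ENNReal.top_ne_zero f.1 m

theorem cz_norm_le (f : Cz E) {C : ℝ} (hC : 0 ≤ C) (h : ∀ m, ‖f.1 m‖ ≤ C) : ‖f‖ ≤ C :=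
  lp.norm_le_of_forall_le hC h

/-- Constructing elements. -/
theorem exists_cz (f : ∀ m, E m) (h : Tendsto (fun m => ‖f m‖) atTop (𝓝 0)) :
    ∃ F : Cz E, ∀ m, F.1 m = f m := by
  have hb : Memℓp f ∞ := by
    apply memℓp_infty
    exact h.bddAbove_range
  exact ⟨⟨⟨f, hb⟩, h⟩, fun m => rfl⟩

theorem czero_isClosed : IsClosed (czero E : Set (lp E ∞)) := by
  rw [← isSeqClosed_iff_isClosed]
  intro u f hu huf
  show Tendsto (fun m => ‖f m‖) atTop (𝓝 0)
  rw [Metric.tendsto_atTop]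
  intro ε hε
  obtain ⟨n, hn⟩ := (Metric.tendsto_atTop.1 huf) (ε / 2) (half_pos hε)
  have hun : Tendsto (fun m => ‖u n m‖) atTop (𝓝 0) := hu n
  obtain ⟨M, hM⟩ := (Metric.tendsto_atTop.1 hun) (ε / 2) (half_pos hε)
  refine ⟨M, fun m hm => ?_⟩
  have h1 := hn n le_rfl
  have h2 := hM m hm
  rw [Real.dist_eq, sub_zero, abs_of_nonneg (norm_nonneg _)] at h2 ⊢
  rw [dist_comm, dist_eq_norm] at h1
  have h3 : ‖(f - u n) m‖ ≤ ‖f - u n‖ := lp.norm_apply_le_norm ENNReal.top_ne_zero _ m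
  have h4 : f m = (f - u n) m + u n m := by
    rw [lp.coeFn_sub, Pi.sub_apply, sub_add_cancel]
  rw [h4]
  exact (norm_add_le _ _).trans_lt (by linarith)

instance [∀ m, CompleteSpace (E m)] : CompleteSpace (Cz E) :=
  (czero_isClosed (E := E)).completeSpace_coe

/-- Elements supported in one coordinate. -/
noncomputable def sg (m : ℕ) (x : E m) : Cz E :=
  ⟨lp.single ∞ m x, by
    show Tendsto (fun k => ‖lp.single ∞ m x k‖) atTop (𝓝 0)
    apply tendsto_const_nhds.congr'
    filter_upwards [eventually_gt_atTop m] with k hk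
    rw [lp.single_apply_ne _ _ _ hk.ne', norm_zero]⟩

theorem sg_self (m : ℕ) (x : E m) : (sg m x).1 m = x := lp.single_apply_self _ _ _

theorem sg_ne {m k : ℕ} (x : E m) (h : k ≠ m) : (sg m x).1 k = 0 :=
  lp.single_apply_ne _ _ _ h

theorem cz_ext {f g : Cz E} (h : ∀ m, f.1 m = g.1 m) : f = g :=
  Subtype.ext (lp.ext (funext h))

instance : IsScalarTower ℂ (Cz E) (Cz E) :=
  ⟨fun r f g => cz_ext fun m => smul_assoc r (f.1 m) (g.1 m)⟩

instance : SMulCommClass ℂ (Cz E) (Cz E) :=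
  ⟨fun r f g => cz_ext fun m => smul_comm r (f.1 m) (g.1 m)⟩

theorem cz_mul_apply (f g : Cz E) (m : ℕ) : (f * g).1 m = f.1 m * g.1 m := rfl

theorem cz_add_apply (f g : Cz E) (m : ℕ) : (f + g).1 m = f.1 m + g.1 m := rfl

theorem cz_sub_apply (f g : Cz E) (m : ℕ) : (f - g).1 m = f.1 m - g.1 m := rfl

theorem cz_smul_apply (c : ℂ) (f : Cz E) (m : ℕ) : (c • f).1 m = c • f.1 m := rfl

theorem cz_sum_apply {ι : Type} (s : Finset ι) (f : ι → Cz E) (m : ℕ) :
    (∑ i ∈ s, f i).1 m = ∑ i ∈ s, (f i).1 m := by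
  classical
  induction s using Finset.induction_on with
  | empty => rfl
  | insert i s hi ih => rw [Finset.sum_insert hi, Finset.sum_insert hi, cz_add_apply, ih]

theorem sg_add (m : ℕ) (x y : E m) : sg m (x + y) = sg m x + sg m y := by
  apply Subtype.ext
  exact lp.single_add _ _ _ _

theorem sg_smul (m : ℕ) (c : ℂ) (x : E m) : sg m (c • x) = c • sg m x := by
  apply Subtype.ext
  exact lp.single_smul _ _ _ _

theorem sg_zero (m : ℕ) : sg m (0 : E m) = 0 := by
  apply Subtype.ext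
  exact lp.single_zero _ _

theorem sg_sum {ι : Type} (m : ℕ) (s : Finset ι) (f : ι → E m) :
    sg m (∑ i ∈ s, f i) = ∑ i ∈ s, sg m (f i) := by
  classical
  induction s using Finset.induction_on with
  | empty => exact sg_zero m
  | insert i s hi ih => rw [Finset.sum_insert hi, Finset.sum_insert hi, sg_add, ih]

theorem mul_sg (f : Cz E) (m : ℕ) (x : E m) : f * sg m x = sg m (f.1 m * x) := by
  apply cz_ext
  intro k
  rw [cz_mul_apply]
  rcases eq_or_ne k m with rfl | h
  · rw [sg_self, sg_self]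
  · rw [sg_ne _ h, sg_ne _ h, mul_zero]

theorem norm_sg (m : ℕ) (x : E m) : ‖sg m x‖ = ‖x‖ := by
  apply le_antisymm
  · refine cz_norm_le _ (norm_nonneg _) fun k => ?_
    rcases eq_or_ne k m with rfl | h
    · rw [sg_self]
    · rw [sg_ne _ h, norm_zero]; exact norm_nonneg _
  · have := cz_apply_le (sg m x) m
    rwa [sg_self] at this

/-- Approximation by elements of finite support. -/
theorem exists_trunc (f : Cz E) {ε : ℝ} (hε : 0 < ε) :
    ∃ M : ℕ, ‖f - ∑ m ∈ Finset.range M, sg m (f.1 m)‖ ≤ ε := by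
  obtain ⟨M, hM⟩ := (Metric.tendsto_atTop.1 (cz_tendsto f)) ε hε
  refine ⟨M, cz_norm_le _ hε.le fun k => ?_⟩
  rw [cz_sub_apply, cz_sum_apply]
  by_cases hk : k < M
  · rw [Finset.sum_eq_single k]
    · rw [sg_self, sub_self, norm_zero]; exact hε.le
    · intro m _ hne
      exact sg_ne _ hne.symm
    · intro h
      exact absurd (Finset.mem_range.2 hk) h
  · rw [Finset.sum_eq_zero, sub_zero]
    · have := hM k (not_lt.1 hk)
      rw [Real.dist_eq, sub_zero, abs_of_nonneg (norm_nonneg _)] at this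
      exact this.le
    · intro m hm
      exact sg_ne _ (by rintro rfl; exact hk (Finset.mem_range.1 hm))

/-- Simultaneous factorization with constants `2` and `5 / 2` in each summand gives simultaneous
factorization with constant `5` in the `c₀`-sum. -/
theorem cz_factor {n : ℕ} (h : ∀ m, ∀ a : Fin n → E m, ∃ (b : E m) (c : Fin n → E m), ‖b‖ ≤ 2 ∧
    ∀ i, a i = b * c i ∧ ‖c i‖ ≤ 5 / 2 * ‖a i‖) (a : Fin n → Cz E) :
    ∃ (b : Cz E) (c : Fin n → Cz E), ∀ i, a i = b * c i ∧ ‖b‖ * ‖c i‖ ≤ 5 * ‖a i‖ := by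
  choose b' c' hb' hc' using fun m => h m fun i => (a i).1 m
  let s : ℕ → ℝ := fun m => ‖(fun i => ‖(a i).1 m‖ / ‖a i‖ : Fin n → ℝ)‖
  have hs0 : ∀ m, 0 ≤ s m := fun m => norm_nonneg _
  have hs1 : ∀ m, s m ≤ 1 := by
    intro m
    refine (pi_norm_le_iff_of_nonneg zero_le_one).2 fun i => ?_
    rw [Real.norm_of_nonneg (by positivity)]
    exact div_le_one_of_le₀ (cz_apply_le (a i) m) (norm_nonneg _)
  have hst : Tendsto s atTop (𝓝 0) := by
    have h1 : Tendsto (fun m => (fun i => ‖(a i).1 m‖ / ‖a i‖ : Fin n → ℝ)) atTop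
        (𝓝 (0 : Fin n → ℝ)) := by
      rw [tendsto_pi_nhds]
      intro i
      have := (cz_tendsto (a i)).div_const ‖a i‖
      rwa [zero_div] at this
    have := h1.norm
    rwa [norm_zero] at this
  have hsa : ∀ m i, ‖(a i).1 m‖ ≤ s m * ‖a i‖ := by
    intro m i
    rcases (norm_nonneg (a i)).eq_or_lt with h0 | h0
    · have := cz_apply_le (a i) m
      rw [← h0] at this ⊢
      simpa using this
    · have h1 := norm_le_pi_norm (fun i => ‖(a i).1 m‖ / ‖a i‖ : Fin n → ℝ) i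
      rw [Real.norm_of_nonneg (by positivity), div_le_iff₀ h0] at h1
      exact h1
  have hsq : Tendsto (fun m => Real.sqrt (s m)) atTop (𝓝 0) := by
    have := (Real.continuous_sqrt.tendsto 0).comp hst
    rwa [Real.sqrt_zero] at this
  have hsq1 : ∀ m, Real.sqrt (s m) ≤ 1 := fun m => Real.sqrt_le_one.2 (hs1 m)
  -- the factors
  have hbn : ∀ m, ‖((Real.sqrt (s m) : ℂ)) • b' m‖ ≤ 2 * Real.sqrt (s m) := by
    intro m
    rw [norm_smul, Complex.norm_real, Real.norm_of_nonneg (Real.sqrt_nonneg _), mul_comm]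
    exact mul_le_mul_of_nonneg_right (hb' m) (Real.sqrt_nonneg _)
  have hcn : ∀ i m, ‖((Real.sqrt (s m) : ℂ))⁻¹ • c' m i‖ ≤ 5 / 2 * ‖a i‖ * Real.sqrt (s m) := by
    intro i m
    rw [norm_smul, norm_inv, Complex.norm_real, Real.norm_of_nonneg (Real.sqrt_nonneg _)]
    rcases (Real.sqrt_nonneg (s m)).eq_or_lt with h0 | h0
    · rw [← h0]; simp
    · rw [inv_mul_le_iff₀ h0]
      calc ‖c' m i‖ ≤ 5 / 2 * ‖(a i).1 m‖ := (hc' m i).2
        _ ≤ 5 / 2 * (s m * ‖a i‖) := by gcongr; exact hsa m i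
        _ = 5 / 2 * ((Real.sqrt (s m) * Real.sqrt (s m)) * ‖a i‖) := by
            rw [Real.mul_self_sqrt (hs0 m)]
        _ = _ := by ring
  obtain ⟨b, hb⟩ := exists_cz (fun m => ((Real.sqrt (s m) : ℂ)) • b' m) (by
    have := hsq.const_mul 2
    rw [mul_zero] at this
    exact squeeze_zero (fun _ => norm_nonneg _) hbn this)
  have hc : ∀ i, ∃ F : Cz E, ∀ m, F.1 m = ((Real.sqrt (s m) : ℂ))⁻¹ • c' m i := by
    intro i
    apply exists_cz
    have := hsq.const_mul (5 / 2 * ‖a i‖)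
    rw [mul_zero] at this
    exact squeeze_zero (fun _ => norm_nonneg _) (hcn i) this
  choose c hc using hc
  refine ⟨b, c, fun i => ⟨?_, ?_⟩⟩
  · apply cz_ext
    intro m
    rw [cz_mul_apply, hb, hc, smul_mul_smul_comm]
    rcases (Real.sqrt_nonneg (s m)).eq_or_lt with h0 | h0
    · have h1 : s m = 0 := by
        have := Real.sqrt_eq_zero (hs0 m)
        exact this.1 h0.symm
      have h2 := hsa m i
      rw [h1, zero_mul] at h2
      have h3 : (a i).1 m = 0 := norm_le_zero_iff.1 h2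
      rw [h3, ← h0]; simp
    · rw [mul_inv_cancel₀ (by exact_mod_cast h0.ne'), one_smul]
      exact (hc' m i).1
  · have h1 : ‖b‖ ≤ 2 := by
      refine cz_norm_le _ (by norm_num) fun m => ?_
      rw [hb]
      exact (hbn m).trans (by nlinarith [hsq1 m])
    have h2 : ‖c i‖ ≤ 5 / 2 * ‖a i‖ := by
      refine cz_norm_le _ (by positivity) fun m => ?_
      rw [hc]
      exact (hcn i m).trans (mul_le_of_le_one_right (by positivity) (hsq1 m))
    calc ‖b‖ * ‖c i‖ ≤ 2 * (5 / 2 * ‖a i‖) := by gcongr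
      _ = 5 * ‖a i‖ := by ring

/-- Packaging of the `c₀`-sum as a commutative Banach algebra. -/
theorem exists_bundle [∀ m, CompleteSpace (E m)]
    (P : ∀ (A : Type) [NonUnitalNormedCommRing A] [NormedSpace ℂ A], Prop) (h : P (Cz E)) :
    ∃ (A : Type) (_ : NonUnitalNormedCommRing A) (_ : NormedSpace ℂ A)
    (_ : IsScalarTower ℂ A A) (_ : SMulCommClass ℂ A A) (_ : CompleteSpace A), P A :=
  ⟨Cz E, inferInstance, inferInstance, inferInstance, inferInstance, inferInstance, h⟩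

end Pool.Agent.FB
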