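import Mathlib

set_option autoImplicit false

/-!
# Factorization and bounded approximate identities: definitions
-/

namespace Pool.Agent.FB

open Filter Topology WeakDual

/-- `A` is completely regular: a character outside a closed set `F` of characters is separated
from `F` by the Gelfand transform of an element of `A`. -/
def CompletelyRegular (A : Type) [NonUnitalNormedCommRing A] [NormedSpace ℂ A] : Prop :=
  ∀ F : Set (characterSpace ℂ A), IsClosed F → ∀ φ₀ : characterSpace ℂ A, φ₀ ∉ F →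
    ∃ a : A, (∀ φ ∈ F, φ a = 0) ∧ φ₀ a ≠ 0

/-- The class `𝒞`: completely regular with discrete maximal ideal space. -/
def ClassC (A : Type) [NonUnitalNormedCommRing A] [NormedSpace ℂ A] : Prop :=
  CompletelyRegular A ∧ DiscreteTopology (characterSpace ℂ A)

/-- `A` is semisimple: the Gelfand representation is injective. -/
def Semisimple (A : Type) [NonUnitalNormedCommRing A] [NormedSpace ℂ A] : Prop :=
  ∀ a : A, (∀ φ : characterSpace ℂ A, φ a = 0) → a = 0

/-- The elements of `A` whose Gelfand transforms have finite support are dense. -/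
def FiniteSupportDense (A : Type) [NonUnitalNormedCommRing A] [NormedSpace ℂ A] : Prop :=
  Dense {a : A | {φ : characterSpace ℂ A | φ a ≠ 0}.Finite}

/-- (BAI) `A` has a bounded approximate identity. -/
def HasBAI (A : Type) [NonUnitalNormedCommRing A] : Prop :=
  ∃ (ι : Type) (_ : Preorder ι) (_ : IsDirected ι (· ≤ ·)) (_ : Nonempty ι) (e : ι → A),
    (∃ C : ℝ, ∀ i, ‖e i‖ ≤ C) ∧ ∀ a : A, Tendsto (fun i => ‖a - e i * a‖) atTop (𝓝 0)

/-- Any `n` elements of `A` can be written `a i = b * c i` with `‖b‖ ‖c i‖ ≤ M ‖a i‖`. -/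
def FactorN (A : Type) [NonUnitalNormedCommRing A] (n : ℕ) (M : ℝ) : Prop :=
  ∀ a : Fin n → A, ∃ (b : A) (c : Fin n → A), ∀ i, a i = b * c i ∧ ‖b‖ * ‖c i‖ ≤ M * ‖a i‖

/-- (F-pairs) -/
def FPairs (A : Type) [NonUnitalNormedCommRing A] : Prop :=
  ∃ M : ℝ, 1 ≤ M ∧ FactorN A 1 M ∧ FactorN A 2 M

/-- (F-sums) -/
def FSums (A : Type) [NonUnitalNormedCommRing A] : Prop :=
  ∃ M : ℝ, 1 ≤ M ∧ ∀ a : A, ∃ b₁ c₁ b₂ c₂ : A, a = b₁ * c₁ + b₂ * c₂ ∧
    ‖b₁‖ * ‖c₁‖ + ‖b₂‖ * ‖c₂‖ ≤ M * ‖a‖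

end Pool.Agent.FB
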