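import Mathlib

set_option autoImplicit false

/-!
# Dominating digraphs without short closed walks

For all `N` and `k` there is a finite digraph in which any `N` vertices have a common
out-neighbour and which has no closed walk of length `1, …, k`.
-/

namespace Pool.Agent.FB

/-- Any `N` vertices have a common out-neighbour. -/
def Dominating {V : Type} (N : ℕ) (r : V → V → Prop) : Prop :=
  ∀ v : Fin N → V, ∃ u, ∀ i, r (v i) u

/-- There is no closed walk of length `m` with `1 ≤ m ≤ k`. -/
def NoShortCycle {V : Type} (k : ℕ) (r : V → V → Prop) : Prop :=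
  ∀ m, 1 ≤ m → m ≤ k → ∀ p : ℕ → V, (∀ i < m, r (p i) (p (i + 1))) → p 0 ≠ p m

/-- The recursive step. -/
def stepRel {V : Type} (N : ℕ) (r : V → V → Prop) :
    ((V × Fin N → V) × V) → ((V × Fin N → V) × V) → Prop :=
  fun x y => r x.2 y.2 ∧ (∀ ω, ω ≠ y.2 → ∀ i, r (x.1 (ω, i)) (y.1 (ω, i))) ∧
    ∃ i, x.1 (y.2, i) = y.1 (y.2, i)

theorem stepRel_dominating {V : Type} {N : ℕ} (r : V → V → Prop) (h : Dominating N r) :
    Dominating N (stepRel N r) := by
  classical
  intro v
  obtain ⟨b, hb⟩ := h fun j => (v j).2
  choose g hg using fun ωi : V × Fin N => h fun j => (v j).1 ωi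
  refine ⟨(fun ωi => if ωi.1 = b then (v ωi.2).1 (b, ωi.2) else g ωi, b), fun j => ⟨hb j, ?_, j, ?_⟩⟩
  · intro ω hω i
    simp only [hω, if_false]
    exact hg (ω, i) j
  · simp

theorem stepRel_noShortCycle {V : Type} {N k : ℕ} (hk : 1 ≤ k) (r : V → V → Prop)
    (h : NoShortCycle k r) : NoShortCycle (k + 1) (stepRel N r) := by
  intro m hm1 hmk p hp hcl
  -- labels
  have hlab : ∀ i < m, r (p i).2 (p (i + 1)).2 := fun i hi => (hp i hi).1
  have hmk' : m = k + 1 := by
    by_contra hne
    exact h m hm1 (by omega) (fun i => (p i).2) hlab (by simp only [hcl])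
  subst hmk'
  -- distinct labels
  have hdist : ∀ s, 2 ≤ s → s ≤ k + 1 → (p s).2 ≠ (p 1).2 := by
    intro s hs1 hs2 hs
    refine h (s - 1) (by omega) (by omega) (fun i => (p (i + 1)).2)
      (fun i hi => hlab (i + 1) (by omega)) ?_
    have : s - 1 + 1 = s := by omega
    show (p (0 + 1)).2 = (p (s - 1 + 1)).2
    rw [this, hs]
  obtain ⟨i, hi⟩ := (hp 0 (by omega)).2.2
  simp only [zero_add] at hi
  refine h k hk le_rfl (fun s => (p (s + 1)).1 ((p 1).2, i)) ?_ ?_
  · intro s hs
    exact (hp (s + 1) (by omega)).2.1 _ (hdist (s + 2) (by omega) (by omega)).symm i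
  · simp only [zero_add]
    rw [← hi, hcl]

theorem exists_digraph (N k : ℕ) : ∃ (V : Type) (_ : Fintype V) (_ : DecidableEq V)
    (_ : Nonempty V) (r : V → V → Prop), Dominating N r ∧ NoShortCycle (k + 1) r := by
  classical
  induction k with
  | zero =>
    refine ⟨Fin (N + 1), inferInstance, inferInstance, inferInstance, fun a b => a ≠ b, ?_, ?_⟩
    · intro v
      have : ¬ Function.Surjective v := by
        intro hs
        have := Fintype.card_le_of_surjective v hs
        simp at this
      simp only [Function.Surjective, not_forall, not_exists] at this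
      exact this
    · intro m hm1 hm2 p hp hcl
      have : m = 1 := by omega
      subst this
      exact hp 0 (by omega) hcl
  | succ k ih =>
    obtain ⟨V, i1, i2, i3, r, h1, h2⟩ := ih
    exact ⟨(V × Fin N → V) × V, inferInstance, inferInstance, inferInstance, stepRel N r,
      stepRel_dominating r h1, stepRel_noShortCycle (by omega) r h2⟩

end Pool.Agent.FB
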