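import Pool.Agent.FB.Inst

set_option autoImplicit false
set_option linter.unusedSectionVars false

/-!
# Factorization in the finite-dimensional algebras
-/

namespace Pool.Agent.FB

open Finset

variable {N m : ℕ} (D : WGroup N (m : ℝ))

theorem exists_rep' (a : AddChar D.G ℂ → ℂ) : ∃ (α : D.G → ℂ) (r : AddChar D.G ℂ → ℂ),
    a = syn α + r ∧ cost D α r ≤ 5 / 4 * NN D a := by
  rcases (NN_nonneg D a).eq_or_lt with h | h
  · have ha : a = 0 := by
      have := norm_le_NN D a
      rw [← h] at this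
      exact norm_le_zero_iff.1 this
    refine ⟨0, 0, by rw [ha, syn_zero, add_zero], ?_⟩
    rw [← h]
    simp [cost, NU_zero]
  · obtain ⟨α, r, h1, h2⟩ := exists_rep D a (show NN D a < 5 / 4 * NN D a by linarith)
    exact ⟨α, r, h1, h2.le⟩

/-- The set of large coefficients is small. -/
theorem card_large (hm : 1 ≤ m) (α : D.G → ℂ) {X : ℝ} (hX : ∑ g, ‖α g‖ ≤ X) :
    (univ.filter fun g => X < m ^ 2 * ‖α g‖).card ≤ m ^ 2 := by
  classical
  set L := univ.filter fun g => X < m ^ 2 * ‖α g‖ with hL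
  have hX0 : 0 ≤ X := (Finset.sum_nonneg fun g _ => norm_nonneg _).trans hX
  by_contra hcon
  push Not at hcon
  have hne : L.Nonempty := Finset.card_pos.1 (by omega)
  have h1 : ∑ g ∈ L, X < ∑ g ∈ L, m ^ 2 * ‖α g‖ :=
    Finset.sum_lt_sum_of_nonempty hne fun g hg => (Finset.mem_filter.1 hg).2
  rw [Finset.sum_const, nsmul_eq_mul, ← Finset.mul_sum] at h1
  have h2 : ∑ g ∈ L, ‖α g‖ ≤ X :=
    (Finset.sum_le_sum_of_subset_of_nonneg (Finset.subset_univ L)
      fun g _ _ => norm_nonneg _).trans hX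
  have h3 : (m : ℝ) ^ 2 * ∑ g ∈ L, ‖α g‖ ≤ m ^ 2 * X := by gcongr
  have h4 : ((m : ℝ) ^ 2) ≤ L.card := by exact_mod_cast hcon.le
  have h5 : (m : ℝ) ^ 2 * X ≤ L.card * X := by gcongr
  linarith

theorem NU_small (hm : 1 ≤ m) (α : D.G → ℂ) {X : ℝ} (hX : ∑ g, ‖α g‖ ≤ X) :
    NU m (syn fun g => if X < m ^ 2 * ‖α g‖ then 0 else α g) ≤ X := by
  classical
  have hX0 : 0 ≤ X := (Finset.sum_nonneg fun g _ => norm_nonneg _).trans hX
  have hm0 : (0 : ℝ) < m := by exact_mod_cast hm
  have hle : ∀ g, ‖(if X < m ^ 2 * ‖α g‖ then 0 else α g : ℂ)‖ ≤ ‖α g‖ := by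
    intro g
    split_ifs
    · simp
    · exact le_rfl
  apply max_le
  · exact (norm_syn_le _).trans ((Finset.sum_le_sum fun g _ => hle g).trans hX)
  · have h1 := parseval (G := D.G) (fun g => if X < m ^ 2 * ‖α g‖ then 0 else α g)
    have h2 : ∑ g, ‖(if X < m ^ 2 * ‖α g‖ then 0 else α g : ℂ)‖ ^ 2 ≤ X / m ^ 2 * X := by
      calc ∑ g, ‖(if X < m ^ 2 * ‖α g‖ then 0 else α g : ℂ)‖ ^ 2
          ≤ ∑ g, X / m ^ 2 * ‖α g‖ := by
            refine Finset.sum_le_sum fun g _ => ?_
            split_ifs with h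
            · rw [norm_zero, zero_pow two_ne_zero]
              positivity
            · push Not at h
              rw [sq]
              apply mul_le_mul_of_nonneg_right _ (norm_nonneg _)
              rw [le_div_iff₀ (by positivity)]
              linarith
        _ = X / m ^ 2 * ∑ g, ‖α g‖ := by rw [Finset.mul_sum]
        _ ≤ X / m ^ 2 * X := by gcongr
    have h3 : L2 (syn fun g => if X < m ^ 2 * ‖α g‖ then 0 else α g) ^ 2 ≤ (X / m) ^ 2 := by
      simp only [syn]
      rw [h1]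
      refine h2.trans (le_of_eq ?_)
      field_simp
    have h4 := abs_le_of_sq_le_sq' h3 (by positivity)
    calc (m : ℝ) * L2 (syn fun g => if X < m ^ 2 * ‖α g‖ then 0 else α g) ≤ m * (X / m) := by
          gcongr; exact h4.2
      _ = X := by field_simp

theorem factor (hm : 1 ≤ m) {n : ℕ} (hN : n * m ^ 2 ≤ N) (a : Fin n → AddChar D.G ℂ → ℂ) :
    ∃ (b : AddChar D.G ℂ → ℂ) (c : Fin n → AddChar D.G ℂ → ℂ), NN D b ≤ 2 ∧
      ∀ i, a i = b * c i ∧ NN D (c i) ≤ 5 / 2 * NN D (a i) := by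
  classical
  choose α r h1 h2 using fun i => exists_rep' D (a i)
  let X : Fin n → ℝ := fun i => cost D (α i) (r i)
  have hX : ∀ i, ∑ g, ‖α i g‖ ≤ X i := fun i =>
    (sum_norm_le D _).trans (le_add_of_nonneg_right (NU_nonneg m _))
  let L : Fin n → Finset D.G := fun i => univ.filter fun g => X i < m ^ 2 * ‖α i g‖
  have hL : ∀ i, (L i).card ≤ m ^ 2 := fun i => card_large D hm (α i) (hX i)
  have hS : (univ.biUnion L).card ≤ N := by
    refine (Finset.card_biUnion_le_card_mul _ _ (m ^ 2) fun i _ => hL i).trans ?_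
    simpa using hN
  obtain ⟨b0, hb0, hb⟩ := D.dom _ hS
  have htt : (tt b0 * tt (-b0) : AddChar D.G ℂ → ℂ) = 1 := by
    rw [← tt_add, add_neg_cancel, tt_zero]
  refine ⟨tt b0, fun i => a i * tt (-b0), (NN_tt_le D b0).trans hb0, fun i => ⟨?_, ?_⟩⟩
  · rw [mul_left_comm, htt, mul_one]
  · -- decomposition
    set β : D.G → ℂ := fun g => if X i < m ^ 2 * ‖α i g‖ then 0 else α i g with hβ
    have hdec : syn (α i) = ∑ g ∈ L i, α i g • tt g + syn β := by
      simp only [syn, hβ, L]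
      rw [Finset.sum_filter, ← Finset.sum_add_distrib]
      refine Finset.sum_congr rfl fun g _ => ?_
      split_ifs <;> simp
    have hprod : a i * tt (-b0) = ∑ g ∈ L i, α i g • tt (g - b0) +
        (syn β * tt (-b0) + r i * tt (-b0)) := by
      rw [h1 i, hdec, add_mul, add_mul, Finset.sum_mul, add_assoc]
      congr 1
      refine Finset.sum_congr rfl fun g _ => ?_
      rw [sub_eq_add_neg, tt_add, smul_mul_assoc]
    have e1 : NN D (∑ g ∈ L i, α i g • tt (g - b0)) ≤ ∑ g, ‖α i g‖ * D.w g := by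
      refine (NN_sum_le D _ _).trans ?_
      refine le_trans (Finset.sum_le_sum (g := fun g => ‖α i g‖ * D.w g) fun g hg => ?_)
        (Finset.sum_le_sum_of_subset_of_nonneg (Finset.subset_univ _)
          fun g _ _ => mul_nonneg (norm_nonneg _) (w_pos D g).le)
      refine (NN_smul_le D _ _).trans (mul_le_mul_of_nonneg_left ?_ (norm_nonneg _))
      exact (NN_tt_le D _).trans (hb g (Finset.mem_biUnion.2 ⟨i, Finset.mem_univ i, hg⟩))
    have e2 : NN D (syn β * tt (-b0)) ≤ X i := by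
      refine (NN_le_NU D _).trans ((NU_mul_le m _ _).trans ?_)
      refine (mul_le_of_le_one_right (NU_nonneg m _) (pi_norm_tt_le _)).trans ?_
      exact NU_small D hm (α i) (hX i)
    have e3 : NN D (r i * tt (-b0)) ≤ NU m (r i) := by
      refine (NN_le_NU D _).trans ((NU_mul_le m _ _).trans ?_)
      exact mul_le_of_le_one_right (NU_nonneg m _) (pi_norm_tt_le _)
    have e4 := NN_add_le D (∑ g ∈ L i, α i g • tt (g - b0)) (syn β * tt (-b0) + r i * tt (-b0))
    have e5 := NN_add_le D (syn β * tt (-b0)) (r i * tt (-b0))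
    have e6 : X i = ∑ g, ‖α i g‖ * D.w g + NU m (r i) := rfl
    have e7 : X i ≤ 5 / 4 * NN D (a i) := h2 i
    show NN D (a i * tt (-b0)) ≤ 5 / 2 * NN D (a i)
    rw [hprod]
    linarith

end Pool.Agent.FB
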