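import Pool.Agent.FB.Defs
import Pool.Agent.FB.Czero
import Pool.Agent.FB.Factor

set_option autoImplicit false
set_option linter.unusedSectionVars false

/-!
# The algebra
-/

namespace Pool.Agent.FB

open Filter Topology WeakDual

section

variable (N : ℕ)

/-- The weighted groups used. -/
noncomputable def DD (k : ℕ) : WGroup (N * (k + 1) ^ 2) ((k + 1 : ℕ) : ℝ) :=
  (exists_wgroup (N * (k + 1) ^ 2) ((k + 1 : ℕ) : ℝ)).some

/-- The summands. -/
abbrev EE (k : ℕ) : Type := Alg (DD N k)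

/-- The algebra. -/
abbrev AA : Type := Cz (EE N)

/-- The index type of the spectrum. -/
abbrev Pt : Type := Σ k : ℕ, AddChar (DD N k).G ℂ

open Classical in
/-- The minimal idempotents of the summands. -/
noncomputable def dl (k : ℕ) (ψ : AddChar (DD N k).G ℂ) : EE N k := fun ψ' => if ψ' = ψ then 1 else 0

theorem mul_dl (k : ℕ) (ψ : AddChar (DD N k).G ℂ) (x : EE N k) :
    x * dl N k ψ = (x ψ) • dl N k ψ := by
  classical
  funext ψ'
  show x ψ' * dl N k ψ ψ' = x ψ * dl N k ψ ψ'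
  simp only [dl]
  split_ifs with h
  · rw [h]
  · simp

theorem eq_sum_dl (k : ℕ) (x : EE N k) : x = ∑ ψ, (x ψ) • dl N k ψ := by
  classical
  funext ψ'
  have : (∑ ψ, (x ψ) • dl N k ψ) ψ' = ∑ ψ, x ψ * (if ψ' = ψ then 1 else 0) := by
    have h1 : ∀ s : Finset (AddChar (DD N k).G ℂ), (∑ ψ ∈ s, (x ψ) • dl N k ψ) ψ' =
        ∑ ψ ∈ s, x ψ * (if ψ' = ψ then 1 else 0) := by
      intro s
      induction s using Finset.induction_on with
      | empty => rfl
      | insert i s hi ih =>
        rw [Finset.sum_insert hi, Finset.sum_insert hi, ← ih]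
        rfl
    exact h1 _
  rw [this, Finset.sum_eq_single ψ']
  · simp
  · intro ψ _ hne
    rw [if_neg (Ne.symm hne), mul_zero]
  · simp

/-- The minimal idempotents. -/
noncomputable def pp (t : Pt N) : AA N := sg t.1 (dl N t.1 t.2)

theorem mul_pp (f : AA N) (t : Pt N) : f * pp N t = (f.1 t.1 t.2) • pp N t := by
  rw [pp, mul_sg, mul_dl, sg_smul]

theorem pp_apply_self (t : Pt N) : (pp N t).1 t.1 t.2 = 1 := by
  rw [pp, sg_self]
  simp [dl]

/-- Evaluations. -/
noncomputable def evL (t : Pt N) : AA N →L[ℂ] ℂ :=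
  LinearMap.mkContinuous
    { toFun := fun f => f.1 t.1 t.2
      map_add' := fun _ _ => rfl
      map_smul' := fun _ _ => rfl } 1 (fun f => by
        rw [one_mul]
        refine le_trans ?_ (cz_apply_le f t.1)
        rw [alg_norm_def]
        refine le_trans ?_ (norm_le_NN _ _)
        exact norm_le_pi_norm (f.1 t.1 : AddChar (DD N t.1).G ℂ → ℂ) t.2)

theorem evL_apply (t : Pt N) (f : AA N) : evL N t f = f.1 t.1 t.2 := rfl

/-- Evaluations as characters. -/
noncomputable def ev (t : Pt N) : characterSpace ℂ (AA N) :=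
  ⟨StrongDual.toWeakDual (evL N t), by
    constructor
    · intro h
      have h1 : (StrongDual.toWeakDual (evL N t) : WeakDual ℂ (AA N)) (pp N t) = 0 := by
        rw [h]; rfl
      have h2 : (StrongDual.toWeakDual (evL N t) : WeakDual ℂ (AA N)) (pp N t) = 1 :=
        pp_apply_self N t
      rw [h1] at h2
      exact zero_ne_one h2
    · intro x y
      rfl⟩

theorem ev_apply (t : Pt N) (f : AA N) : ev N t f = f.1 t.1 t.2 := rfl

theorem char_apply (φ : characterSpace ℂ (AA N)) (t : Pt N) (h : φ (pp N t) ≠ 0) (f : AA N) :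
    φ f = f.1 t.1 t.2 := by
  have h1 : φ (f * pp N t) = φ f * φ (pp N t) := map_mul φ f (pp N t)
  rw [mul_pp, map_smul, smul_eq_mul] at h1
  exact (mul_right_cancel₀ h h1).symm

theorem exists_pp (φ : characterSpace ℂ (AA N)) : ∃ t : Pt N, φ (pp N t) ≠ 0 := by
  by_contra hcon
  push Not at hcon
  have h1 : ∀ (k : ℕ) (x : EE N k), φ (sg k x) = 0 := by
    intro k x
    rw [eq_sum_dl N k x, sg_sum, map_sum]
    refine Finset.sum_eq_zero fun ψ _ => ?_
    rw [sg_smul, map_smul]
    have := hcon ⟨k, ψ⟩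
    rw [pp] at this
    rw [this, smul_zero]
  have hcont : Continuous φ := map_continuous φ
  have h2 : ∀ f : AA N, φ f = 0 := by
    intro f
    have h3 : ∀ n : ℕ, ∃ g : AA N, φ g = 0 ∧ ‖f - g‖ ≤ 1 / (n + 1 : ℝ) := by
      intro n
      obtain ⟨M, hM⟩ := exists_trunc f (ε := 1 / (n + 1 : ℝ)) (by positivity)
      refine ⟨_, ?_, hM⟩
      rw [map_sum]
      exact Finset.sum_eq_zero fun m _ => h1 m _
    choose g hg1 hg2 using h3
    have h4 : Tendsto g atTop (𝓝 f) := by
      rw [tendsto_iff_norm_sub_tendsto_zero]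
      refine squeeze_zero (fun _ => norm_nonneg _) (fun n => ?_)
        tendsto_one_div_add_atTop_nhds_zero_nat
      rw [norm_sub_rev]
      exact hg2 n
    have h5 := (hcont.tendsto f).comp h4
    have h6 : (⇑φ ∘ g) = fun _ => 0 := funext hg1
    rw [h6] at h5
    exact tendsto_nhds_unique h5 tendsto_const_nhds |>.symm ▸ rfl
  exact φ.2.1 (DFunLike.ext (φ : WeakDual ℂ (AA N)) 0 h2)

theorem eq_of_pp (φ χ : characterSpace ℂ (AA N)) (t : Pt N) (h : φ (pp N t) ≠ 0)
    (h' : χ (pp N t) ≠ 0) : φ = χ := by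
  apply CharacterSpace.ext
  intro f
  rw [char_apply N φ t h, char_apply N χ t h']

theorem discrete : DiscreteTopology (characterSpace ℂ (AA N)) := by
  rw [discreteTopology_iff_isOpen_singleton]
  intro φ
  obtain ⟨t, ht⟩ := exists_pp N φ
  have h1 : ({φ} : Set (characterSpace ℂ (AA N))) = {χ | χ (pp N t) ≠ 0} := by
    ext χ
    constructor
    · rintro rfl; exact ht
    · intro hχ
      exact eq_of_pp N χ φ t hχ ht
  rw [h1]
  have h2 : Continuous fun χ : characterSpace ℂ (AA N) => χ (pp N t) :=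
    (WeakDual.eval_continuous (pp N t)).comp continuous_subtype_val
  exact isOpen_ne_fun h2 continuous_const

theorem regular : CompletelyRegular (AA N) := by
  intro F _ φ₀ h0
  obtain ⟨t, ht⟩ := exists_pp N φ₀
  refine ⟨pp N t, fun φ hφ => ?_, ht⟩
  by_contra hne
  exact h0 (eq_of_pp N φ φ₀ t hne ht ▸ hφ)

theorem semisimple : Semisimple (AA N) := by
  intro f h
  apply cz_ext
  intro k
  funext ψ
  exact h (ev N ⟨k, ψ⟩)

theorem factorN : FactorN (AA N) N 5 := by
  intro a
  refine cz_factor (fun k b => ?_) a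
  have hk : N * (k + 1) ^ 2 ≤ N * (k + 1) ^ 2 := le_rfl
  exact factor (DD N k) (by omega) hk b

theorem FactorN.mono {A : Type} [NonUnitalNormedCommRing A] {n m : ℕ} {M : ℝ}
    (h : FactorN A m M) (hnm : n ≤ m) : FactorN A n M := by
  intro a
  obtain ⟨b, c, hc⟩ := h fun i => if hi : (i : ℕ) < n then a ⟨i, hi⟩ else 0
  refine ⟨b, fun i => c ⟨i, i.2.trans_le hnm⟩, fun i => ?_⟩
  have := hc ⟨i, i.2.trans_le hnm⟩
  simpa using this

theorem not_bai : ¬ HasBAI (AA N) := by
  rintro ⟨ι, _, _, _, e, ⟨C, hC⟩, he⟩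
  obtain ⟨k, hk⟩ := exists_nat_gt (C + 1)
  -- the unit of the `k`-th summand
  let u : EE N k := (1 : AddChar (DD N k).G ℂ → ℂ)
  have h1 := he (sg k u)
  have h2 : ∀ᶠ i in atTop, ‖sg k u - e i * sg k u‖ < 1 / 2 :=
    (tendsto_order.1 h1).2 _ (by norm_num)
  obtain ⟨i, hi⟩ := h2.exists
  have h3 : e i * sg k u = sg k ((e i).1 k) := by
    rw [mul_sg]
    congr 1
    exact mul_one ((e i).1 k : AddChar (DD N k).G ℂ → ℂ)
  have h4 : ‖(e i * sg k u)‖ ≤ C := by
    rw [h3, norm_sg]
    exact (cz_apply_le (e i) k).trans (hC i)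
  have h5 : ‖sg k u‖ ≤ C + 1 / 2 := by
    have : sg k u = (sg k u - e i * sg k u) + e i * sg k u := by abel
    rw [this]
    exact (norm_add_le _ _).trans (by linarith)
  rw [norm_sg, alg_norm_def] at h5
  have h6 := le_NN (DD N k) (1 : AddChar (DD N k).G ℂ → ℂ)
  have hc : (0 : ℝ) < Fintype.card (DD N k).G := by exact_mod_cast Fintype.card_pos
  have h7 : ‖∑ ψ : AddChar (DD N k).G ℂ, (1 : AddChar (DD N k).G ℂ → ℂ) ψ‖ =
      Fintype.card (DD N k).G := by
    simp only [Pi.one_apply, Finset.sum_const, Finset.card_univ, nsmul_eq_mul, mul_one]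
    rw [AddChar.card_eq, Complex.norm_natCast]
  rw [h7] at h6
  have h8 : ((k + 1 : ℕ) : ℝ) ≤ NN (DD N k) (1 : AddChar (DD N k).G ℂ → ℂ) := by
    rw [mul_comm] at h6
    exact le_of_mul_le_mul_left h6 hc
  have h9 : NN (DD N k) (1 : AddChar (DD N k).G ℂ → ℂ) ≤ C + 1 / 2 := h5
  push_cast at h8
  linarith

theorem exists_ev (φ : characterSpace ℂ (AA N)) : ∃ t : Pt N, φ = ev N t := by
  obtain ⟨t, ht⟩ := exists_pp N φ
  refine ⟨t, CharacterSpace.ext fun f => ?_⟩
  rw [char_apply N φ t ht, ev_apply]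

/-- Elements with finitely supported Gelfand transform are dense. -/
theorem tauberian : FiniteSupportDense (AA N) := by
  classical
  show Dense {f : AA N | {φ : characterSpace ℂ (AA N) | φ f ≠ 0}.Finite}
  intro f
  rw [Metric.mem_closure_iff]
  intro ε hε
  obtain ⟨M, hM⟩ := exists_trunc f (half_pos hε)
  refine ⟨_, ?_, lt_of_le_of_lt (by rw [dist_eq_norm]; exact hM) (half_lt_self hε)⟩
  have hfin : ((ev N) '' (↑((Finset.range M).sigma fun k =>
      (Finset.univ : Finset (AddChar (DD N k).G ℂ))) : Set (Pt N))).Finite :=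
    (Finset.finite_toSet _).image _
  refine hfin.subset ?_
  intro φ hφ
  obtain ⟨t, rfl⟩ := exists_ev N φ
  refine ⟨t, ?_, rfl⟩
  simp only [Finset.coe_sigma, Set.mem_sigma_iff, Finset.coe_range, Set.mem_Iio, Finset.coe_univ,
    Set.mem_univ, and_true]
  by_contra hge
  apply hφ
  rw [ev_apply, cz_sum_apply, Finset.sum_eq_zero]
  · rfl
  · intro m hm
    exact sg_ne _ (by rintro h; exact hge (h ▸ Finset.mem_range.1 hm))

end

end Pool.Agent.FB
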