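import Pool.Agent.FB.Alg

set_option autoImplicit false
set_option linter.unusedSectionVars false

/-!
# The finite-dimensional algebras as normed algebras
-/

namespace Pool.Agent.FB

open Finset

/-- The algebra of functions on the dual group, with the norm `NN`. -/
def Alg {N m : ℕ} (D : WGroup N (m : ℝ)) : Type := AddChar D.G ℂ → ℂ

variable {N m : ℕ} (D : WGroup N (m : ℝ))

instance : CommRing (Alg D) := inferInstanceAs (CommRing (AddChar D.G ℂ → ℂ))

instance : Module ℂ (Alg D) := inferInstanceAs (Module ℂ (AddChar D.G ℂ → ℂ))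

instance : IsScalarTower ℂ (Alg D) (Alg D) :=
  inferInstanceAs (IsScalarTower ℂ (AddChar D.G ℂ → ℂ) (AddChar D.G ℂ → ℂ))

instance : SMulCommClass ℂ (Alg D) (Alg D) :=
  inferInstanceAs (SMulCommClass ℂ (AddChar D.G ℂ → ℂ) (AddChar D.G ℂ → ℂ))

instance : Module.Finite ℂ (Alg D) := inferInstanceAs (Module.Finite ℂ (AddChar D.G ℂ → ℂ))

/-- The norm as an additive group norm. -/
noncomputable def algNorm : AddGroupNorm (Alg D) where
  toFun a := NN D a
  map_zero' := by
    have := NN_smul_le D 0 0
    simp only [zero_smul, norm_zero, zero_mul] at this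
    exact le_antisymm this (NN_nonneg D _)
  add_le' a b := NN_add_le D a b
  neg' a := by
    have h1 : ∀ b : AddChar D.G ℂ → ℂ, NN D (-b) ≤ NN D b := fun b => by
      have := NN_smul_le D (-1) b
      simpa using this
    refine le_antisymm (h1 a) ?_
    exact (congrArg (NN D) (neg_neg (a : AddChar D.G ℂ → ℂ))).symm.le.trans (h1 (-a))
  eq_zero_of_map_eq_zero' a ha := by
    have := norm_le_NN D a
    have ha' : NN D a = 0 := ha
    rw [ha'] at this
    exact norm_le_zero_iff.1 this

noncomputable instance : NormedAddCommGroup (Alg D) := (algNorm D).toNormedAddCommGroup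

theorem alg_norm_def (a : Alg D) : ‖a‖ = NN D a := rfl

noncomputable instance : NonUnitalNormedCommRing (Alg D) :=
  { (inferInstance : NormedAddCommGroup (Alg D)), (inferInstance : CommRing (Alg D)) with
    norm_mul_le := fun a b => NN_mul_le D a b }

noncomputable instance : NormedSpace ℂ (Alg D) where
  norm_smul_le c a := NN_smul_le D c a

noncomputable instance : CompleteSpace (Alg D) := FiniteDimensional.complete ℂ (Alg D)

example : (NonUnitalNormedCommRing.toNonUnitalNormedRing : NonUnitalNormedRing (Alg D)).toNormedAddCommGroup = (inferInstance : NormedAddCommGroup (Alg D)) := rfl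

end Pool.Agent.FB
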