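import Pool.Agent.FB.Weight

set_option autoImplicit false
set_option linter.unusedSectionVars false

/-!
# The normalised `L²` norm on the dual group
-/

namespace Pool.Agent.FB

open Finset

section

variable {G : Type} [AddCommGroup G] [Fintype G] [DecidableEq G]

/-- Normalised `L²` norm on functions on the dual group. -/
noncomputable def L2 (r : AddChar G ℂ → ℂ) : ℝ :=
  Real.sqrt ((∑ ψ, ‖r ψ‖ ^ 2) / Fintype.card G)

/-- The characters of the dual group. -/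
def tt (g : G) : AddChar G ℂ → ℂ := fun ψ => ψ g

theorem L2_eq (r : AddChar G ℂ → ℂ) :
    L2 r = ‖(WithLp.toLp 2 r : EuclideanSpace ℂ (AddChar G ℂ))‖ / Real.sqrt (Fintype.card G) := by
  rw [EuclideanSpace.norm_eq, L2, Real.sqrt_div (by positivity)]

theorem L2_nonneg (r : AddChar G ℂ → ℂ) : 0 ≤ L2 r := Real.sqrt_nonneg _

theorem L2_add_le (r s : AddChar G ℂ → ℂ) : L2 (r + s) ≤ L2 r + L2 s := by
  rw [L2_eq, L2_eq, L2_eq, ← add_div, WithLp.toLp_add]
  exact div_le_div_of_nonneg_right (norm_add_le _ _) (Real.sqrt_nonneg _)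

theorem L2_smul (c : ℂ) (r : AddChar G ℂ → ℂ) : L2 (c • r) = ‖c‖ * L2 r := by
  rw [L2_eq, L2_eq, WithLp.toLp_smul, norm_smul, mul_div_assoc]

theorem L2_mul_le (r s : AddChar G ℂ → ℂ) : L2 (r * s) ≤ L2 r * ‖s‖ := by
  have h0 : L2 r * ‖s‖ = Real.sqrt (((∑ ψ, ‖r ψ‖ ^ 2) / Fintype.card G) * ‖s‖ ^ 2) := by
    rw [L2, Real.sqrt_mul (by positivity), Real.sqrt_sq (norm_nonneg _)]
  rw [h0, L2]
  apply Real.sqrt_le_sqrt
  rw [div_mul_eq_mul_div, Finset.sum_mul]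
  apply div_le_div_of_nonneg_right _ (by positivity)
  apply Finset.sum_le_sum
  intro ψ _
  rw [Pi.mul_apply, norm_mul, mul_pow]
  gcongr
  exact norm_le_pi_norm s ψ

theorem norm_tt (g : G) (ψ : AddChar G ℂ) : ‖tt g ψ‖ = 1 := AddChar.norm_apply ψ g

theorem tt_add (g h : G) : tt (g + h) = tt g * tt h := by
  funext ψ
  exact AddChar.map_add_eq_mul ψ g h

theorem tt_zero : tt (0 : G) = 1 := by
  funext ψ
  exact AddChar.map_zero_eq_one ψ

theorem pi_norm_tt_le (g : G) : ‖(tt g : AddChar G ℂ → ℂ)‖ ≤ 1 :=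
  (pi_norm_le_iff_of_nonneg zero_le_one).2 fun ψ => (norm_tt g ψ).le

theorem sum_tt (g : G) : ∑ ψ, tt g ψ = if g = 0 then (Fintype.card G : ℂ) else 0 :=
  AddChar.sum_apply_eq_ite g

theorem parseval (α : G → ℂ) : L2 (∑ g, α g • tt g) ^ 2 = ∑ g, ‖α g‖ ^ 2 := by
  have hcard : (Fintype.card G : ℂ) ≠ 0 := by
    exact_mod_cast Fintype.card_ne_zero
  rw [L2, Real.sq_sqrt (by positivity), div_eq_iff (by exact_mod_cast Fintype.card_ne_zero)]
  have h1 : ((∑ ψ : AddChar G ℂ, ‖(∑ g, α g • tt g) ψ‖ ^ 2 : ℝ) : ℂ) =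
      (((∑ g, ‖α g‖ ^ 2) * Fintype.card G : ℝ) : ℂ) := by
    push_cast
    have h2 : ∀ ψ : AddChar G ℂ, ((‖(∑ g, α g • tt g) ψ‖ : ℂ)) ^ 2 =
        ∑ g, ∑ h, α g * (starRingEnd ℂ) (α h) * tt (g - h) ψ := by
      intro ψ
      rw [← Complex.mul_conj']
      rw [Finset.sum_apply, map_sum, Finset.sum_mul_sum]
      refine Finset.sum_congr rfl fun g _ => Finset.sum_congr rfl fun h _ => ?_
      have h3 : tt (g - h) ψ = tt g ψ * (starRingEnd ℂ) (tt h ψ) := by
        simp only [tt]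
        rw [sub_eq_add_neg, AddChar.map_add_eq_mul, AddChar.map_neg_eq_conj]
      rw [h3]
      simp only [Pi.smul_apply, smul_eq_mul, map_mul]
      ring
    simp only [h2]
    rw [Finset.sum_comm]
    simp_rw [Finset.sum_comm (s := (Finset.univ : Finset (AddChar G ℂ)))]
    simp_rw [← Finset.mul_sum, sum_tt, sub_eq_zero]
    simp only [mul_ite, mul_zero, Finset.sum_ite_eq, Finset.mem_univ, if_true]
    rw [Finset.sum_mul]
    refine Finset.sum_congr rfl fun g _ => ?_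
    rw [Complex.mul_conj']
  exact_mod_cast h1

/-- The mean value is bounded by the `L²` norm. -/
theorem norm_avg_le (r : AddChar G ℂ → ℂ) : ‖∑ ψ, r ψ‖ ≤ Fintype.card G * L2 r := by
  have hcard : Fintype.card (AddChar G ℂ) = Fintype.card G := AddChar.card_eq
  have h1 : ‖∑ ψ, r ψ‖ ≤ ∑ ψ, ‖r ψ‖ := norm_sum_le _ _
  have h2 : (∑ ψ, ‖r ψ‖) ^ 2 ≤ Fintype.card G * ∑ ψ, ‖r ψ‖ ^ 2 := by
    have := sq_sum_le_card_mul_sum_sq (s := (Finset.univ : Finset (AddChar G ℂ)))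
      (f := fun ψ => ‖r ψ‖)
    rwa [Finset.card_univ, hcard] at this
  have hc : (0 : ℝ) < Fintype.card G := by exact_mod_cast Fintype.card_pos
  have h3 : (Fintype.card G * L2 r) ^ 2 = Fintype.card G * ∑ ψ, ‖r ψ‖ ^ 2 := by
    rw [mul_pow, L2, Real.sq_sqrt (by positivity)]
    field_simp
  refine h1.trans (abs_le_of_sq_le_sq' ?_ (by have := L2_nonneg r; positivity)).2
  rw [h3]; exact h2

end

end Pool.Agent.FB
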