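import Pool.Agent.FB.Digraph

set_option autoImplicit false

/-!
# Weighted finite abelian groups in which many elements have a common divisor of small weight
-/

namespace Pool.Agent.FB

section

variable {V : Type} (r : V → V → Prop) (q k : ℕ)

/-- The generators attached to a digraph. -/
def Gen : Set (V → ZMod q) := {g | ∃ v, g v = 1 ∧ ∀ u, u ≠ v → g u ≠ 0 → r v u}

/-- `g` is a sum of `j` generators. -/
def SumOf (j : ℕ) (g : V → ZMod q) : Prop :=
  ∃ l : List (V → ZMod q), l.length = j ∧ (∀ t ∈ l, t ∈ Gen r q) ∧ l.sum = g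

variable {r q k}

theorem not_sumOf_zero {j : ℕ} (hj1 : 1 ≤ j) (hjk : j ≤ k) (hk : k < q)
    (h : NoShortCycle k r) : ¬ SumOf r q j (0 : V → ZMod q) := by
  classical
  rintro ⟨l, hl, hlT, hsum⟩
  subst hl
  have hv : ∀ i : Fin l.length, ∃ v, l.get i v = 1 ∧ ∀ u, u ≠ v → l.get i u ≠ 0 → r v u :=
    fun i => hlT _ (List.get_mem l i)
  choose v hv1 hv2 using hv
  have hsum' : ∀ u, ∑ i : Fin l.length, l.get i u = 0 := by
    intro u
    have h1 : ∑ i : Fin l.length, l.get i = 0 := by
      rw [← hsum]
      conv_rhs => rw [← List.ofFn_get l]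
      rw [List.sum_ofFn]
    rw [← Finset.sum_apply, h1, Pi.zero_apply]
  have hm : ∀ a : Fin l.length, ∃ m : Fin l.length, r (v m) (v a) := by
    intro a
    by_contra hcon
    push Not at hcon
    have h1 : ∀ i : Fin l.length, l.get i (v a) = if v i = v a then 1 else 0 := by
      intro i
      split_ifs with hi
      · rw [← hi]; exact hv1 i
      · by_contra hne
        exact hcon i (hv2 i (v a) (Ne.symm hi) hne)
    have h2 := hsum' (v a)
    simp only [h1, Finset.sum_boole] at h2
    have h3 : 1 ≤ (Finset.univ.filter fun i : Fin l.length => v i = v a).card :=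
      Finset.card_pos.2 ⟨a, by simp⟩
    have h4 : (Finset.univ.filter fun i : Fin l.length => v i = v a).card ≤ l.length := by
      refine (Finset.card_filter_le _ _).trans ?_
      simp
    rw [ZMod.natCast_eq_zero_iff] at h2
    exact absurd (Nat.le_of_dvd (by omega) h2) (by omega)
  choose m hm using hm
  let a0 : Fin l.length := ⟨0, by omega⟩
  let s : ℕ → Fin l.length := fun n => m^[n] a0
  have hs : ∀ n, r (v (s (n + 1))) (v (s n)) := by
    intro n
    simp only [s, Function.iterate_succ', Function.comp]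
    exact hm _
  have hpig : ∃ x y : Fin (l.length + 1), x < y ∧ s x = s y := by
    obtain ⟨x, y, hne, hxy⟩ := Fintype.exists_ne_map_eq_of_card_lt
      (fun i : Fin (l.length + 1) => s i) (by simp)
    rcases lt_or_gt_of_ne hne with h1 | h1
    · exact ⟨x, y, h1, hxy⟩
    · exact ⟨y, x, h1, hxy.symm⟩
  obtain ⟨x, y, hxy, hs'⟩ := hpig
  have hxy' : (x : ℕ) < y := hxy
  have hy : (y : ℕ) < l.length + 1 := y.2
  refine h (y - x) (by omega) (by omega) (fun i => v (s (y - i))) ?_ ?_
  · intro i hi
    have : (y : ℕ) - i = (y - (i + 1)) + 1 := by omega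
    simp only [this]
    exact hs _
  · have : (y : ℕ) - (y - x) = x := by omega
    simp only [this, Nat.sub_zero, hs']

variable (r q k)

/-- The length function. -/
noncomputable def len (g : V → ZMod q) : ℕ := sInf {j | j = k + 1 ∨ (1 ≤ j ∧ SumOf r q j g)}

theorem len_mem (g : V → ZMod q) : len r q k g = k + 1 ∨ (1 ≤ len r q k g ∧
    SumOf r q (len r q k g) g) :=
  Nat.sInf_mem (s := {j | j = k + 1 ∨ (1 ≤ j ∧ SumOf r q j g)}) ⟨k + 1, Or.inl rfl⟩

theorem len_le (g : V → ZMod q) : len r q k g ≤ k + 1 :=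
  Nat.sInf_le (Or.inl rfl)

theorem len_le_of {g : V → ZMod q} {j : ℕ} (hj : 1 ≤ j) (h : SumOf r q j g) :
    len r q k g ≤ j :=
  Nat.sInf_le (Or.inr ⟨hj, h⟩)

theorem one_le_len (g : V → ZMod q) : 1 ≤ len r q k g := by
  rcases len_mem r q k g with h | h
  · omega
  · exact h.1

theorem len_add (g h : V → ZMod q) : len r q k (g + h) ≤ len r q k g + len r q k h := by
  have h0 := len_le r q k (g + h)
  have h1g := one_le_len r q k g
  have h1h := one_le_len r q k h
  rcases len_mem r q k g with hg | hg
  · omega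
  rcases len_mem r q k h with hh | hh
  · omega
  obtain ⟨l1, hl1, hT1, hs1⟩ := hg.2
  obtain ⟨l2, hl2, hT2, hs2⟩ := hh.2
  refine len_le_of r q k (by omega) ⟨l1 ++ l2, by simp [hl1, hl2], ?_, by simp [hs1, hs2]⟩
  intro t ht
  rcases List.mem_append.1 ht with h | h
  · exact hT1 t h
  · exact hT2 t h

theorem len_zero (hk : k < q) (h : NoShortCycle k r) : len r q k (0 : V → ZMod q) = k + 1 := by
  rcases len_mem r q k (0 : V → ZMod q) with h0 | h0
  · exact h0
  · by_contra hne
    have := len_le r q k (0 : V → ZMod q)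
    exact not_sumOf_zero h0.1 (by omega) hk h h0.2

theorem exists_common {N : ℕ} [Nonempty V] (h : Dominating N r) {α : Type} (s : Finset α)
    (hs : s.card ≤ N) (f : α → V) : ∃ u, ∀ g ∈ s, r (f g) u := by
  classical
  let e := s.equivFin
  obtain ⟨u, hu⟩ := h fun i => if hi : (i : ℕ) < s.card then f (e.symm ⟨i, hi⟩) else
    Classical.arbitrary V
  refine ⟨u, fun g hg => ?_⟩
  have := hu ⟨e ⟨g, hg⟩, (e ⟨g, hg⟩).2.trans_le hs⟩
  simp only [Fin.is_lt, dite_true, Fin.eta, Equiv.symm_apply_apply] at this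
  exact this

theorem len_dom {N : ℕ} [Nonempty V] [DecidableEq V] (h : Dominating N r)
    (hloop : NoShortCycle 1 r) (s : Finset (V → ZMod q)) (hs : s.card ≤ N) :
    ∃ b : V → ZMod q, len r q k b ≤ 1 ∧ ∀ g ∈ s, len r q k (g - b) ≤ len r q k g := by
  classical
  -- for each `g` choose a vertex
  have hch : ∀ g : V → ZMod q, ∃ v : V, ∀ u, r v u → 
      len r q k (g - Pi.single u 1) ≤ len r q k g := by
    intro g
    rcases len_mem r q k g with hg | ⟨hg1, l, hl, hT, hsum⟩
    · exact ⟨Classical.arbitrary V, fun u _ => by rw [hg]; exact len_le r q k _⟩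
    · cases l with
      | nil => simp at hl; omega
      | cons t l =>
        obtain ⟨v, hv1, hv2⟩ := hT t (by simp)
        refine ⟨v, fun u hu => ?_⟩
        have huv : u ≠ v := by
          rintro rfl
          exact hloop 1 le_rfl le_rfl (fun _ => u) (fun _ _ => hu) rfl
        refine len_le_of r q k hg1 ⟨(t - Pi.single u 1) :: l, by simpa using hl, ?_, ?_⟩
        · intro t' ht'
          rcases List.mem_cons.1 ht' with rfl | h'
          · refine ⟨v, ?_, ?_⟩
            · rw [Pi.sub_apply, Pi.single_eq_of_ne huv.symm, hv1, sub_zero]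
            · intro u' hu' hne
              by_cases hu2 : u' = u
              · rw [hu2]; exact hu
              · rw [Pi.sub_apply, Pi.single_eq_of_ne hu2, sub_zero] at hne
                exact hv2 u' hu' hne
          · exact hT t' (by simp [h'])
        · rw [← hsum]; simp only [List.sum_cons]; abel
  choose f hf using hch
  obtain ⟨u, hu⟩ := exists_common r h s hs f
  refine ⟨Pi.single u 1, len_le_of r q k le_rfl ⟨[Pi.single u 1], rfl, ?_, by simp⟩, fun g hg =>
    hf g u (hu g hg)⟩
  intro t ht
  simp only [List.mem_singleton] at ht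
  subst ht
  exact ⟨u, by simp, fun u' hu' hne => absurd (Pi.single_eq_of_ne hu' _) hne⟩

end

/-- A finite abelian group with a submultiplicative weight which is large at `0`, such that any
at most `N` elements have a common divisor of weight at most `2`. -/
structure WGroup (N : ℕ) (K : ℝ) where
  /-- the group -/
  G : Type
  [grp : AddCommGroup G]
  [fin : Fintype G]
  [dec : DecidableEq G]
  /-- the weight -/
  w : G → ℝ
  one_le : ∀ g, 1 ≤ w g
  add_le : ∀ g h, w (g + h) ≤ w g * w h
  zero_ge : K ≤ w 0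
  dom : ∀ s : Finset G, s.card ≤ N → ∃ b, w b ≤ 2 ∧ ∀ g ∈ s, w (g - b) ≤ w g

attribute [instance] WGroup.grp WGroup.fin WGroup.dec

theorem exists_wgroup (N : ℕ) (K : ℝ) : Nonempty (WGroup N K) := by
  classical
  obtain ⟨k, hk⟩ := pow_unbounded_of_one_lt K (show (1 : ℝ) < 2 by norm_num)
  obtain ⟨V, i1, i2, i3, r, hdom, hcyc⟩ := exists_digraph N k
  let q := k + 2
  have : NeZero q := ⟨by omega⟩
  have hcyc1 : NoShortCycle 1 r := fun m h1 h2 => hcyc m h1 (by omega)
  refine ⟨{ G := V → ZMod q
            w := fun g => 2 ^ (len r q (k + 1) g)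
            one_le := fun g => one_le_pow₀ (by norm_num)
            add_le := fun g h => ?_
            zero_ge := ?_
            dom := fun s hs => ?_ }⟩
  · rw [← pow_add]
    exact pow_le_pow_right₀ (by norm_num) (len_add r q (k + 1) g h)
  · rw [len_zero r q (k + 1) (by omega) hcyc]
    refine hk.le.trans (pow_le_pow_right₀ (by norm_num) (by omega))
  · obtain ⟨b, hb, hb'⟩ := len_dom r q (k + 1) hdom hcyc1 s hs
    refine ⟨b, ?_, fun g hg => pow_le_pow_right₀ (by norm_num) (hb' g hg)⟩
    calc (2 : ℝ) ^ (len r q (k + 1) b) ≤ 2 ^ 1 := pow_le_pow_right₀ (by norm_num) hb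
      _ = 2 := by norm_num

end Pool.Agent.FB
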